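import Pool.Agent.H35.CA.Top

/-!
# Generic solvability of the centro-affine Minkowski problem (MP_622023_gt)

For `n ≥ 2` and a positive function `f` on the unit sphere `S` of `ℝⁿ` the equation is
`h_K^(n+1) dS_K = f dσ`, for convex bodies `K` with the origin in the interior.
The surface area measure `S_K` is characterised by the first variation of the volume: the right
derivative of `vol (K + s L)` at `s = 0` is `∫ h_L dS_K`, for every convex body `L`.
-/

namespace Pool.Agent.Results.MP_622023_gt.GenericSolvability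

open MeasureTheory Metric Set Pool.Agent.H35.CA
open scoped Pointwise

/-- Nonempty compact convex sets. -/
def Body {n : ℕ} (K : Set (E n)) : Prop := IsCompact K ∧ Convex ℝ K ∧ K.Nonempty

/-- The volume of `K + s L`. -/
noncomputable def volSum {n : ℕ} (K L : Set (E n)) (s : ℝ) : ℝ := (volume (K + s • L)).toReal

/-- Integration over the unit sphere for the surface measure. -/
noncomputable def sphInt {n : ℕ} (F : Sph n → ℝ) : ℝ :=
  ∫ u, F u ∂(volume : Measure (E n)).toSphere

/-- `h_K^(n+1) dS_K = f dσ`, where `K` is a convex body with `0` in the interior. -/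
def Sol {n : ℕ} (f : Sph n → ℝ) (K : Set (E n)) : Prop :=
  Body K ∧ 0 ∈ interior K ∧ ∀ L, Body L →
    HasDerivWithinAt (volSum K L)
      (sphInt (fun u => supp L u * (f u * (supp K u ^ (n + 1))⁻¹))) (Ici 0) 0

/-- A continuous positive function. -/
def CtPos {n : ℕ} (f : Sph n → ℝ) : Prop := Continuous f ∧ ∀ u, 0 < f u

/-- All continuous functions which are uniformly close to `f` are positive and have a solution
with two widths of ratio at least `M`. -/
def Robust {n : ℕ} (M : ℝ) (f : Sph n → ℝ) : Prop :=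
  ∃ r : ℝ, 0 < r ∧ ∀ g : Sph n → ℝ, Continuous g → (∀ u, |g u - f u| ≤ r) →
    CtPos g ∧ ∃ K : Set (E n), Sol g K ∧ Ecc M K

/-- `f'` differs from `f` by a smooth function which is supported in `U` and bounded by `ε`. -/
def SmoothChange {n : ℕ} (U : Set (E n)) (ε : ℝ) (f f' : Sph n → ℝ) : Prop :=
  ∃ G : E n → ℝ, ContDiff ℝ (⊤ : ℕ∞) G ∧ tsupport G ⊆ U ∧
    ∀ u : Sph n, |G u| ≤ ε ∧ f' u = f u + G u

/-- There are infinitely many solutions, of unbounded eccentricity. -/
def ManySol {n : ℕ} (f : Sph n → ℝ) : Prop :=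
  (∀ M : ℝ, ∃ K : Set (E n), Sol f K ∧ Ecc M K) ∧ {K : Set (E n) | Sol f K}.Infinite

/-- An open set containing `w` and `-w`. -/
def Nbhd {n : ℕ} (w : Sph n) (U : Set (E n)) : Prop := IsOpen U ∧ (w : E n) ∈ U ∧ -(w : E n) ∈ U

/-- The positive functions, as a subset of the Banach space `C(S)`. -/
def Pos (n : ℕ) : Set C(Sph n, ℝ) := {f | ∀ u, 0 < f u}

/-- The admissible functions, as a subset of the Banach space `C(S)`. -/
def Admissible (n : ℕ) : Set C(Sph n, ℝ) := {f | CtPos (n := n) f ∧ ∃ K : Set (E n), Sol f K}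

/-- The interior of the set of admissible functions is dense in the positive functions. -/
def DenseInterior (n : ℕ) : Prop := Pos n ⊆ closure (interior (Admissible n))

/-- The positive continuous functions with many solutions. -/
def Many (n : ℕ) : Set C(Sph n, ℝ) := {f | CtPos (n := n) f ∧ ManySol (n := n) f}

/-- The functions with many solutions contain a dense `G_δ` subset of the positive functions. -/
def GenericMany (n : ℕ) : Prop := ∃ R ⊆ Many n, IsGδ R ∧ Pos n ⊆ closure R

theorem sol_iff {n : ℕ} (f : Sph n → ℝ) (K : Set (E n)) : Sol f K ↔ IsSolution f K := by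
  constructor
  · rintro ⟨⟨h1, h2, h3⟩, h4, h5⟩
    exact ⟨h1, h2, h4, fun L hL1 hL2 hL3 => h5 L ⟨hL1, hL2, hL3⟩⟩
  · intro h
    exact ⟨⟨h.compact, h.convex, ⟨0, interior_subset h.zero_mem⟩⟩, h.zero_mem,
      fun L hL => h.var L hL.1 hL.2.1 hL.2.2⟩

theorem result (n : ℕ) (hn : 2 ≤ n) :
    -- Every positive continuous `f` has equal values at some pair of antipodal points, and near
    -- any such pair an arbitrarily small smooth change of `f` makes the function and all its
    -- uniform neighbours solvable, with solutions of arbitrarily large eccentricity.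
    (∀ f : Sph n → ℝ, CtPos f → (∃ w, f (-w) = f w) ∧ ∀ w, f (-w) = f w →
      ∀ U : Set (E n), Nbhd w U → ∀ ε : ℝ, 0 < ε → ∀ M : ℝ,
      ∃ f' : Sph n → ℝ, Robust M f' ∧ SmoothChange U ε f f' ∧
        ∀ α : ℝ, 0 < α → α ≤ 1 → HolS α f → HolS α f') ∧
    DenseInterior n ∧ GenericMany n := by
  refine ⟨fun f hf => ?_, ?_, ?_⟩
  · have hs := top_exists_sym hn ⟨f, hf.1⟩
    refine ⟨hs, ?_⟩
    intro w hw U hU ε hε M
    obtain ⟨G, hG1, hG2, hG3, r, hr, hG4⟩ :=
      top_local hn ⟨f, hf.1⟩ hf.2 w hw hU.1 hU.2.1 hU.2.2 hε M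
    refine ⟨fun u => f u + G u, ⟨r, hr, ?_⟩, ⟨G, hG1, hG2, fun u => ⟨hG3 u, rfl⟩⟩, ?_⟩
    · intro g hg hgr
      obtain ⟨h1, K, hK1, hK2⟩ := hG4 ⟨g, hg⟩ hgr
      exact ⟨⟨hg, h1⟩, K, (sol_iff g K).2 hK1, hK2⟩
    · intro α h0 h3 hH
      exact top_holder h0 h3 hH hG1
  · have h1 : Admissible n = Adm n := by
      ext f
      constructor
      · rintro ⟨h1, K, hK⟩
        exact ⟨h1.2, K, (sol_iff _ K).1 hK⟩
      · rintro ⟨h1, K, hK⟩
        exact ⟨⟨f.continuous, h1⟩, K, (sol_iff _ K).2 hK⟩
    unfold DenseInterior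
    rw [h1]
    exact top_dense hn
  · obtain ⟨R, h1, h2, h3⟩ := top_generic hn
    refine ⟨R, fun f hf => ⟨⟨f.continuous, (h3 f hf).1⟩, ?_, ?_⟩, h1, h2⟩
    · intro M
      obtain ⟨K, hK1, hK2⟩ := (h3 f hf).2.1 M
      exact ⟨K, (sol_iff _ K).2 hK1, hK2⟩
    · have : {K : Set (E n) | Sol (n := n) f K} = {K : Set (E n) | IsSolution f K} := by
        ext K
        exact sol_iff _ K
      rw [this]
      exact (h3 f hf).2.2

end Pool.Agent.Results.MP_622023_gt.GenericSolvability
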