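import Pool.Agent.H88.CN.RES

/-!
# The Chou-Wang obstruction is stable in `C^(1,α)` (MP_622023_gt)

For `n ≥ 2` and a positive function `f` on the unit sphere `S` of `ℝⁿ` the equation is
`h_K^(n+1) dS_K = f dσ`, for convex bodies `K` with the origin in the interior.
The surface area measure `S_K` is characterised by the first variation of the volume: the right
derivative of `vol (K + s L)` at `s = 0` is `∫ h_L dS_K`, for every convex body `L`.
-/

namespace Pool.Agent.Results.MP_622023_gt.StableObstruction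

open MeasureTheory Metric Set Pool.Agent.H35.CA
open scoped Pointwise

/-- Nonempty compact convex sets. -/
def Body {n : ℕ} (K : Set (E n)) : Prop := IsCompact K ∧ Convex ℝ K ∧ K.Nonempty

/-- `h_K^(n+1) dS_K = f dσ`, where `K` is a convex body with `0` in the interior. -/
def Sol {n : ℕ} (f : Sph n → ℝ) (K : Set (E n)) : Prop :=
  Body K ∧ 0 ∈ interior K ∧ ∀ L, Body L →
    HasDerivWithinAt (fun s : ℝ => (volume (K + s • L)).toReal)
      (∫ u : Sph n, supp L u * (f u * (supp K u ^ (n + 1))⁻¹)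
        ∂(volume : Measure (E n)).toSphere) (Ici 0) 0

/-- `f` is positive and the equation has no solution. -/
def NoSol {n : ℕ} (f : Sph n → ℝ) : Prop := (∀ u, 0 < f u) ∧ ¬ ∃ K : Set (E n), Sol f K

/-- `f` is of class `C^k` on the sphere (`extS f` is its extension of degree 0). -/
def Cont (k : ℕ) {n : ℕ} (f : Sph n → ℝ) : Prop := ContDiffOn ℝ k (extS f) {0}ᶜ

/-- The spherical gradient of `f`. -/
noncomputable def grad {n : ℕ} (f : Sph n → ℝ) (u : Sph n) : E n := gradient (extS f) (u : E n)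

/-- The tangential vector field `u ↦ B u - ⟨B u, u⟩ u`. -/
noncomputable def fld {n : ℕ} (B : E n →L[ℝ] E n) (u : Sph n) : E n :=
  B u - (inner ℝ (B u) (u : E n) : ℝ) • (u : E n)

/-- `f` is of class `C¹` and its `C^(1,α)` distance to `g` is at most `ε`: values, spherical
gradients, and Hölder quotients of the difference of the spherical gradients. -/
def Close {n : ℕ} (α ε : ℝ) (f g : Sph n → ℝ) : Prop :=
  Cont 1 f ∧ (∀ u, |f u - g u| ≤ ε ∧ ‖grad f u - grad g u‖ ≤ ε) ∧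
    ∀ u v, ‖(grad f u - grad g u) - (grad f v - grad g v)‖ ≤ ε * ‖(u : E n) - (v : E n)‖ ^ α

/-- Within the distance `r` of the vectors `b i`, the gradient of the odd part of `f` is bounded
by `C` times the odd part of `f`. -/
def OddControl {n : ℕ} (b : Fin n → E n) (C r : ℝ) (f : Sph n → ℝ) : Prop :=
  ∀ (i : Fin n) (u : Sph n), ‖(u : E n) - b i‖ ≤ r →
    ‖grad f u + grad f (-u)‖ ≤ C * |f u - f (-u)|

/-- The nondegenerate obstruction of Chou and Wang for a symmetric `L` with the orthonormal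
eigenbasis `b` and simple eigenvalues: `⟨∇ f, ξ⟩ ≥ c |ξ|²`, `ξ u = L u - ⟨L u, u⟩ u`. -/
def Obstr {n : ℕ} (b : OrthonormalBasis (Fin n) ℝ (E n)) (c : ℝ) (f : Sph n → ℝ) : Prop :=
  ∃ (L : E n →L[ℝ] E n) (μ : Fin n → ℝ), Function.Injective μ ∧ (∀ i, L (b i) = μ i • b i) ∧
    ∀ u, c * ‖fld L u‖ ^ 2 ≤ inner ℝ (grad f u) (fld L u)

/-- `⟨∇ f, ξ_B⟩` takes both signs for every matrix `B` which is not a multiple of the identity:
the sign criterion of Chou and Wang does not exclude `f`. -/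
def Passes {n : ℕ} (f : Sph n → ℝ) : Prop :=
  ∀ B : E n →L[ℝ] E n, (∀ s : ℝ, B ≠ s • (1 : E n →L[ℝ] E n)) →
    (∃ u, 0 < (inner ℝ (grad f u) (fld B u) : ℝ)) ∧
      ∃ u, (inner ℝ (grad f u) (fld B u) : ℝ) < 0

theorem sol_iff {n : ℕ} (f : Sph n → ℝ) (K : Set (E n)) : Sol f K ↔ IsSolution f K := by
  constructor
  · rintro ⟨⟨h1, h2, h3⟩, h4, h5⟩
    exact ⟨h1, h2, h4, fun L hL1 hL2 hL3 => h5 L ⟨hL1, hL2, hL3⟩⟩
  · intro h
    exact ⟨⟨h.compact, h.convex, ⟨0, interior_subset h.zero_mem⟩⟩, h.zero_mem,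
      fun L hL => h.var L hL.1 hL.2.1 hL.2.2⟩

open Pool.Agent.H88.CN

theorem ext_sol {n : ℕ} (f : Sph n → ℝ) :
    (fun u : sphere (0 : E n) 1 => extS f (u : E n)) = f := by
  funext u
  exact extS_coe f u

theorem lop_eq {n : ℕ} (b : OrthonormalBasis (Fin n) ℝ (E n)) {μ : Fin n → ℝ}
    {L : E n →L[ℝ] E n} (h : ∀ i, L (b i) = μ i • b i) : L = Lop b μ := by
  ext1 x
  rw [← b.sum_repr x, map_sum, map_sum]
  refine Finset.sum_congr rfl fun i _ => ?_
  rw [map_smul, map_smul, h, lop_basis]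

theorem ext_neg {n : ℕ} (f : Sph n → ℝ) (u : Sph n) : extS f (-(u : E n)) = f (-u) := by
  have := extS_coe f (-u)
  rwa [coe_neg_sphere] at this

theorem close_cl {n : ℕ} {α ε : ℝ} {f g : Sph n → ℝ} {G : E n → ℝ} (h : Close α ε f g)
    (hG0 : ∀ u : Sph n, G u = g u) (hG : ∀ u : Sph n, gradient G (u : E n) = grad g u) :
    Cl α ε (extS f) G := by
  refine ⟨fun u hu => ?_, fun u hu => ?_, fun u v hu hv => ?_⟩
  · have h1 := (h.2.1 ⟨u, by rwa [mem_sphere_zero_iff_norm]⟩).1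
    have h2 := extS_coe f ⟨u, by rwa [mem_sphere_zero_iff_norm]⟩
    have h3 := hG0 ⟨u, by rwa [mem_sphere_zero_iff_norm]⟩
    rw [← h2, ← h3] at h1
    exact h1
  · have h1 := (h.2.1 ⟨u, by rwa [mem_sphere_zero_iff_norm]⟩).2
    rw [← hG] at h1
    exact h1
  · have h1 := h.2.2 ⟨u, by rwa [mem_sphere_zero_iff_norm]⟩
      ⟨v, by rwa [mem_sphere_zero_iff_norm]⟩
    rw [← hG, ← hG] at h1
    exact h1

/-- The obstruction of Chou and Wang is stable in `C^(1,α)`, and near the constant `1` there are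
`C^(1,α)` balls of functions which pass the criterion of Chou and Wang and have no solution. -/
theorem result (n : ℕ) (hn : 2 ≤ n) :
    (∀ f : Sph n → ℝ, Cont 2 f → (∀ u, 0 < f u) →
      ∀ (b : OrthonormalBasis (Fin n) ℝ (E n)) (c : ℝ), 0 < c → Obstr b c f →
      ∀ α C r : ℝ, 0 < α → α ≤ 1 → 0 < C → 0 < r →
      ∃ ε : ℝ, 0 < ε ∧ ∀ g : Sph n → ℝ, Close α ε g f → OddControl b C r g → NoSol g) ∧
    (∀ η α : ℝ, 0 < η → 0 < α → α ≤ 1 →
      ∃ μ a : Fin n → ℝ, (∀ i, |μ i| ≤ η ∧ |a i| ≤ η) ∧ ∃ ρ : ℝ, 0 < ρ ∧ ∀ g : Sph n → ℝ,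
        Close α ρ g (fun u => 1 + ∑ i, μ i * (u : E n) i ^ 2 + ∑ i, a i * (u : E n) i) →
        NoSol g ∧ Passes g) := by
  constructor
  · rintro f hf hpos b c hc ⟨L, μ, hμ, hL, hO⟩ α C r hα hα1 hC hr
    have hL' := lop_eq b hL
    subst hL'
    obtain ⟨ε, hε, h1⟩ := stab hn (F0 := extS f) (res_sm hf) (by
        intro u hu
        have := hpos ⟨u, by rwa [mem_sphere_zero_iff_norm]⟩
        rwa [← extS_coe f] at this) hμ hc (by
        intro u hu
        exact hO ⟨u, by rwa [mem_sphere_zero_iff_norm]⟩) hα hα1 hC hr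
    refine ⟨ε, hε, fun g hg hodd => ?_⟩
    obtain ⟨h2, h3⟩ := h1 (extS g) (res_sm hg.1)
      (close_cl hg (fun u => extS_coe f u) (fun u => rfl)) (by
        intro i u hu hui
        have h4 := hodd i ⟨u, by rwa [mem_sphere_zero_iff_norm]⟩ hui
        rw [← extS_coe g, ← ext_neg g] at h4
        exact h4)
    refine ⟨fun u => ?_, ?_⟩
    · rw [← extS_coe g]
      exact h2 u (res_norm u)
    · rintro ⟨K, hK⟩
      refine h3 ⟨K, ?_⟩
      rw [ext_sol]
      exact (sol_iff _ _).1 hK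
  · intro η α hη hα hα1
    obtain ⟨μ, a, h1, ρ, hρ, h2⟩ := near hn hη hα hα1
    refine ⟨μ, fun i => a i, h1, ρ, hρ, fun g hg => ?_⟩
    set f0 : Sph n → ℝ := fun u => 1 + ∑ i, μ i * (u : E n) i ^ 2 + ∑ i, a i * (u : E n) i
      with hf0
    set Q : E n → ℝ := Qf (EuclideanSpace.basisFun (Fin n) ℝ) μ a with hQ
    have hQ0 : ∀ u : Sph n, Q u = f0 u := by
      intro u
      rw [hQ, qf_unit _ _ _ (res_norm u), hf0]
      congr 1
      · congr 1
        refine Finset.sum_congr rfl fun i _ => ?_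
        congr 2
        rw [EuclideanSpace.basisFun_apply, EuclideanSpace.inner_single_left]
        simp
      · rw [PiLp.inner_apply]
        refine Finset.sum_congr rfl fun i _ => ?_
        simp [mul_comm]
    have hQ1 : ∀ x : E n, x ≠ 0 → Q x = extS f0 x := by
      refine res_eq (qf_sm _ _ _ 1).hom (res_hom f0) ?_
      intro u hu
      have := hQ0 ⟨u, by rwa [mem_sphere_zero_iff_norm]⟩
      rw [← extS_coe f0] at this
      exact this
    obtain ⟨h3, h4, h5⟩ := h2 (extS g) (res_sm hg.1)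
      (close_cl hg hQ0 (fun u => res_grad hQ1 (res_ne (res_norm u))))
    refine ⟨⟨fun u => ?_, ?_⟩, ?_⟩
    · rw [← extS_coe g]
      exact h3 u (res_norm u)
    · rintro ⟨K, hK⟩
      refine h4 ⟨K, ?_⟩
      rw [ext_sol]
      exact (sol_iff _ _).1 hK
    · intro B hB
      obtain ⟨⟨u, hu, hu1⟩, ⟨v, hv, hv1⟩⟩ := h5 B hB
      have key : ∀ u : E n, ∀ hu : ‖u‖ = 1,
          (inner ℝ (grad g ⟨u, by rwa [mem_sphere_zero_iff_norm]⟩)
            (fld B ⟨u, by rwa [mem_sphere_zero_iff_norm]⟩) : ℝ) =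
          inner ℝ (gradient (extS g) u) (B u) := by
        intro u hu
        have h6 := grad_tan (res_sm (k := 1) hg.1) (res_ne hu)
        change inner ℝ (gradient (extS g) u) (B u - (inner ℝ (B u) u : ℝ) • u) = _
        rw [inner_sub_right, inner_smul_right, h6, mul_zero, sub_zero]
      refine ⟨⟨⟨u, by rwa [mem_sphere_zero_iff_norm]⟩, ?_⟩,
        ⟨⟨v, by rwa [mem_sphere_zero_iff_norm]⟩, ?_⟩⟩
      · rw [key u hu]
        exact hu1
      · rw [key v hv]
        exact hv1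

end Pool.Agent.Results.MP_622023_gt.StableObstruction
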